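import Pool.Agent.Helper13.R6.SheetA

/-! Row ALG of `Pool.Agent.Helper13.R6.SheetA`: formal facts. -/

set_option autoImplicit false

namespace Pool.Helper13.R6

theorem le_nv (d : Fin 4 → ℝ) (v : V4) (i : Fin 4) : d i * |(v i : ℝ)| ≤ nv d v :=
  Finset.le_sup' (fun i => d i * |(v i : ℝ)|) (Finset.mem_univ i)

theorem nv_le {d : Fin 4 → ℝ} {v : V4} {B : ℝ} (h : ∀ i, d i * |(v i : ℝ)| ≤ B) : nv d v ≤ B :=
  Finset.sup'_le _ _ fun i _ => h i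

theorem le_nx (d : Fin 4 → ℝ) (x : A4) (i j : Fin 4) : d i * d j * |(x i j : ℝ)| ≤ nx d x :=
  Finset.le_sup' (fun p : Fin 4 × Fin 4 => d p.1 * d p.2 * |(x p.1 p.2 : ℝ)|)
    (Finset.mem_univ (i, j))

theorem nx_le {d : Fin 4 → ℝ} {x : A4} {B : ℝ} (h : ∀ i j, d i * d j * |(x i j : ℝ)| ≤ B) :
    nx d x ≤ B :=
  Finset.sup'_le _ _ fun p _ => h p.1 p.2

theorem nv_nonneg {d : Fin 4 → ℝ} (hd : ∀ i, 0 < d i) (v : V4) : 0 ≤ nv d v :=
  (mul_nonneg (hd 0).le (abs_nonneg _)).trans (le_nv d v 0)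

theorem nx_nonneg {d : Fin 4 → ℝ} (hd : ∀ i, 0 < d i) (x : A4) : 0 ≤ nx d x :=
  (mul_nonneg (mul_nonneg (hd 0).le (hd 0).le) (abs_nonneg _)).trans (le_nx d x 0 0)

theorem alg_diag {x : A4} (h : Plu x) (i : Fin 4) : x i i = 0 := by
  have := h.1 i i
  omega

theorem alg_plu_stx {x : A4} (h : Plu x) : Plu (stx x) := by
  obtain ⟨ha, hp⟩ := h
  refine ⟨?_, ?_⟩
  · intro i j
    fin_cases i <;> fin_cases j
    · show (0 : ℤ) = - 0; rfl
    · exact ha 2 3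
    · exact ha 3 1
    · exact ha 1 2
    · exact ha 3 2
    · show (0 : ℤ) = - 0; rfl
    · exact ha 0 3
    · exact ha 2 0
    · exact ha 1 3
    · exact ha 3 0
    · show (0 : ℤ) = - 0; rfl
    · exact ha 0 1
    · exact ha 2 1
    · exact ha 0 2
    · exact ha 1 0
    · show (0 : ℤ) = - 0; rfl
  · show x 2 3 * x 0 1 - x 3 1 * x 2 0 + x 1 2 * x 0 3 = 0
    rw [ha 3 1, ha 2 0]
    linear_combination hp

theorem alg_stx_stx {x : A4} (h : Plu x) : stx (stx x) = x := by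
  funext i j
  have hd := alg_diag h
  fin_cases i <;> fin_cases j
  · exact (hd 0).symm
  · rfl
  · rfl
  · rfl
  · rfl
  · exact (hd 1).symm
  · rfl
  · rfl
  · rfl
  · rfl
  · exact (hd 2).symm
  · rfl
  · rfl
  · rfl
  · rfl
  · exact (hd 3).symm

theorem alg_w3_swap {x : A4} (h : Plu x) (v : V4) (i j k : Fin 4) :
    w3 x v i j k = - w3 x v j i k := by
  unfold w3
  rw [h.1 i j]
  ring

theorem alg_w3_swap' {x : A4} (h : Plu x) (v : V4) (i j k : Fin 4) :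
    w3 x v i j k = - w3 x v i k j := by
  unfold w3
  rw [h.1 j k]
  ring

theorem alg_inP_iff {x : A4} (h : Plu x) (v : V4) : InP x v ↔ hv x v = 0 := by
  constructor
  · intro hI
    funext l
    fin_cases l
    · show - w3 x v 1 2 3 = 0
      rw [hI]; rfl
    · exact hI _ _ _
    · show - w3 x v 0 1 3 = 0
      rw [hI]; rfl
    · exact hI _ _ _
  · intro hv0 i j k
    have e0 : w3 x v 1 2 3 = 0 := by
      have h1 : - w3 x v 1 2 3 = 0 := congrFun hv0 0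
      omega
    have e1 : w3 x v 0 2 3 = 0 := congrFun hv0 1
    have e2 : w3 x v 0 1 3 = 0 := by
      have h1 : - w3 x v 0 1 3 = 0 := congrFun hv0 2
      omega
    have e3 : w3 x v 0 1 2 = 0 := congrFun hv0 3
    have a10 := h.1 1 0
    have a20 := h.1 2 0
    have a30 := h.1 3 0
    have a21 := h.1 2 1
    have a31 := h.1 3 1
    have a32 := h.1 3 2
    have d0 := alg_diag h 0
    have d1 := alg_diag h 1
    have d2 := alg_diag h 2
    have d3 := alg_diag h 3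
    unfold w3 at *
    fin_cases i <;> fin_cases j <;> fin_cases k <;>
      simp only [Fin.isValue, Fin.zero_eta, Fin.mk_one, Fin.reduceFinMk, a10, a20, a30, a21, a31,
        a32, d0, d1, d2, d3] at e0 e1 e2 e3 ⊢ <;> linarith

theorem alg_inP_hv {x : A4} (h : Plu x) (v : V4) : InP (stx x) (hv x v) := by
  rw [alg_inP_iff (alg_plu_stx h)]
  have hp := h.2
  have a10 := h.1 1 0
  have a20 := h.1 2 0
  have a30 := h.1 3 0
  have a21 := h.1 2 1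
  have a31 := h.1 3 1
  have a32 := h.1 3 2
  funext l
  fin_cases l
  · show - (x 0 3 * (w3 x v 0 1 2) - x 2 0 * (- w3 x v 0 1 3) + x 0 1 * w3 x v 0 2 3) = 0
    unfold w3
    rw [a20]
    linear_combination (- v 0) * hp
  · show x 3 1 * (w3 x v 0 1 2) - x 1 2 * (- w3 x v 0 1 3) + x 0 1 * (- w3 x v 1 2 3) = 0
    unfold w3
    rw [a31]
    linear_combination (- v 1) * hp
  · show - (x 2 3 * (w3 x v 0 1 2) - x 1 2 * (w3 x v 0 2 3) + x 2 0 * (- w3 x v 1 2 3)) = 0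
    unfold w3
    rw [a20]
    linear_combination (- v 2) * hp
  · show x 2 3 * (- w3 x v 0 1 3) - x 3 1 * (w3 x v 0 2 3) + x 0 3 * (- w3 x v 1 2 3) = 0
    unfold w3
    rw [a31]
    linear_combination (- v 3) * hp

theorem alg_wdg (s t : V4) : Plu (wdg s t) ∧ InP (wdg s t) s ∧ InP (wdg s t) t := by
  refine ⟨⟨fun i j => ?_, ?_⟩, fun i j k => ?_, fun i j k => ?_⟩ <;> simp only [wdg, w3] <;> ring

theorem alg_prim_stx {x : A4} (h : Plu x) (hp : PrimA x) : PrimA (stx x) := by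
  intro m hm
  apply hp m
  intro i j
  have hd := alg_diag h
  fin_cases i <;> fin_cases j
  · show m ∣ x 0 0; rw [hd 0]; exact dvd_zero m
  · exact hm 2 3
  · exact hm 3 1
  · exact hm 1 2
  · exact hm 3 2
  · show m ∣ x 1 1; rw [hd 1]; exact dvd_zero m
  · exact hm 0 3
  · exact hm 2 0
  · exact hm 1 3
  · exact hm 3 0
  · show m ∣ x 2 2; rw [hd 2]; exact dvd_zero m
  · exact hm 0 1
  · exact hm 2 1
  · exact hm 0 2
  · exact hm 1 0
  · show m ∣ x 3 3; rw [hd 3]; exact dvd_zero m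

theorem alg_nx_le (d : Fin 4 → ℝ) (x : A4) (hd : ∀ i, 0 < d i)
    (hp : d 0 * d 1 * d 2 * d 3 = 1) : nx (fun i => (d i)⁻¹) (stx x) ≤ nx d x := by
  have h0 := (hd 0).ne'
  have h1 := (hd 1).ne'
  have h2 := (hd 2).ne'
  have h3 := (hd 3).ne'
  have key : ∀ (i j k l : Fin 4), d i * d j * d k * d l = 1 →
      (d i)⁻¹ * (d j)⁻¹ = d k * d l := by
    intro i j k l h
    have hi := (hd i).ne'
    have hj := (hd j).ne'
    field_simp
    linarith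
  have z : (0 : ℝ) ≤ nx d x := nx_nonneg hd x
  have k01 := key 0 1 2 3 hp
  have k02 := key 0 2 3 1 (by linarith)
  have k03 := key 0 3 1 2 (by linarith)
  have k12 := key 1 2 0 3 (by linarith)
  have k13 := key 1 3 2 0 (by linarith)
  have k23 := key 2 3 0 1 (by linarith)
  have k10 := key 1 0 3 2 (by linarith)
  have k20 := key 2 0 1 3 (by linarith)
  have k30 := key 3 0 2 1 (by linarith)
  have k21 := key 2 1 3 0 (by linarith)
  have k31 := key 3 1 0 2 (by linarith)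
  have k32 := key 3 2 1 0 (by linarith)
  apply nx_le
  intro i j
  fin_cases i <;> fin_cases j
  · show (d 0)⁻¹ * (d 0)⁻¹ * |((0 : ℤ) : ℝ)| ≤ nx d x; simpa using z
  · show (d 0)⁻¹ * (d 1)⁻¹ * |((x 2 3 : ℤ) : ℝ)| ≤ nx d x; rw [k01]; exact le_nx d x _ _
  · show (d 0)⁻¹ * (d 2)⁻¹ * |((x 3 1 : ℤ) : ℝ)| ≤ nx d x; rw [k02]; exact le_nx d x _ _
  · show (d 0)⁻¹ * (d 3)⁻¹ * |((x 1 2 : ℤ) : ℝ)| ≤ nx d x; rw [k03]; exact le_nx d x _ _
  · show (d 1)⁻¹ * (d 0)⁻¹ * |((x 3 2 : ℤ) : ℝ)| ≤ nx d x; rw [k10]; exact le_nx d x _ _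
  · show (d 1)⁻¹ * (d 1)⁻¹ * |((0 : ℤ) : ℝ)| ≤ nx d x; simpa using z
  · show (d 1)⁻¹ * (d 2)⁻¹ * |((x 0 3 : ℤ) : ℝ)| ≤ nx d x; rw [k12]; exact le_nx d x _ _
  · show (d 1)⁻¹ * (d 3)⁻¹ * |((x 2 0 : ℤ) : ℝ)| ≤ nx d x; rw [k13]; exact le_nx d x _ _
  · show (d 2)⁻¹ * (d 0)⁻¹ * |((x 1 3 : ℤ) : ℝ)| ≤ nx d x; rw [k20]; exact le_nx d x _ _
  · show (d 2)⁻¹ * (d 1)⁻¹ * |((x 3 0 : ℤ) : ℝ)| ≤ nx d x; rw [k21]; exact le_nx d x _ _
  · show (d 2)⁻¹ * (d 2)⁻¹ * |((0 : ℤ) : ℝ)| ≤ nx d x; simpa using z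
  · show (d 2)⁻¹ * (d 3)⁻¹ * |((x 0 1 : ℤ) : ℝ)| ≤ nx d x; rw [k23]; exact le_nx d x _ _
  · show (d 3)⁻¹ * (d 0)⁻¹ * |((x 2 1 : ℤ) : ℝ)| ≤ nx d x; rw [k30]; exact le_nx d x _ _
  · show (d 3)⁻¹ * (d 1)⁻¹ * |((x 0 2 : ℤ) : ℝ)| ≤ nx d x; rw [k31]; exact le_nx d x _ _
  · show (d 3)⁻¹ * (d 2)⁻¹ * |((x 1 0 : ℤ) : ℝ)| ≤ nx d x; rw [k32]; exact le_nx d x _ _
  · show (d 3)⁻¹ * (d 3)⁻¹ * |((0 : ℤ) : ℝ)| ≤ nx d x; simpa using z

theorem alg_nx_stx (d : Fin 4 → ℝ) (x : A4) (hd : ∀ i, 0 < d i)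
    (hp : d 0 * d 1 * d 2 * d 3 = 1) (h : Plu x) : nx (fun i => (d i)⁻¹) (stx x) = nx d x := by
  apply le_antisymm (alg_nx_le d x hd hp)
  have h1 := alg_nx_le (fun i => (d i)⁻¹) (stx x) (fun i => inv_pos.2 (hd i)) (by
    rw [← mul_inv, ← mul_inv, ← mul_inv, hp, inv_one])
  simp only [inv_inv] at h1
  rwa [alg_stx_stx h] at h1

theorem alg_w3_le (d : Fin 4 → ℝ) (x : A4) (v : V4) (hd : ∀ i, 0 < d i) (i j k : Fin 4) :
    d i * d j * d k * |(w3 x v i j k : ℝ)| ≤ 3 * nx d x * nv d v := by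
  have hi := hd i
  have hj := hd j
  have hk := hd k
  have t1 : (d i * d j * |(x i j : ℝ)|) * (d k * |(v k : ℝ)|) ≤ nx d x * nv d v :=
    mul_le_mul (le_nx d x i j) (le_nv d v k) (by positivity) (nx_nonneg hd x)
  have t2 : (d i * d k * |(x i k : ℝ)|) * (d j * |(v j : ℝ)|) ≤ nx d x * nv d v :=
    mul_le_mul (le_nx d x i k) (le_nv d v j) (by positivity) (nx_nonneg hd x)
  have t3 : (d j * d k * |(x j k : ℝ)|) * (d i * |(v i : ℝ)|) ≤ nx d x * nv d v :=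
    mul_le_mul (le_nx d x j k) (le_nv d v i) (by positivity) (nx_nonneg hd x)
  have e : |(w3 x v i j k : ℝ)| ≤ |(x i j : ℝ)| * |(v k : ℝ)| + |(x i k : ℝ)| * |(v j : ℝ)| +
      |(x j k : ℝ)| * |(v i : ℝ)| := by
    unfold w3
    push_cast
    rw [← abs_mul, ← abs_mul, ← abs_mul]
    have a1 := abs_add_le ((x i j : ℝ) * v k - x i k * v j) (x j k * v i)
    have a2 := abs_sub ((x i j : ℝ) * v k) (x i k * v j)
    linarith
  have hD : 0 < d i * d j * d k := by positivity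
  calc d i * d j * d k * |(w3 x v i j k : ℝ)|
      ≤ d i * d j * d k * (|(x i j : ℝ)| * |(v k : ℝ)| + |(x i k : ℝ)| * |(v j : ℝ)| +
      |(x j k : ℝ)| * |(v i : ℝ)|) := mul_le_mul_of_nonneg_left e hD.le
    _ = (d i * d j * |(x i j : ℝ)|) * (d k * |(v k : ℝ)|) +
        (d i * d k * |(x i k : ℝ)|) * (d j * |(v j : ℝ)|) +
        (d j * d k * |(x j k : ℝ)|) * (d i * |(v i : ℝ)|) := by ring
    _ ≤ 3 * nx d x * nv d v := by linarith

theorem alg_nv_hv (d : Fin 4 → ℝ) (x : A4) (v : V4) (hd : ∀ i, 0 < d i)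
    (hp : d 0 * d 1 * d 2 * d 3 = 1) :
    nv (fun i => (d i)⁻¹) (hv x v) ≤ 3 * nx d x * nv d v := by
  have key : ∀ (l i j k : Fin 4), d i * d j * d k * d l = 1 → (d l)⁻¹ = d i * d j * d k := by
    intro l i j k h
    exact inv_eq_of_mul_eq_one_left h
  apply nv_le
  intro l
  fin_cases l
  · show (d 0)⁻¹ * |((- w3 x v 1 2 3 : ℤ) : ℝ)| ≤ _
    rw [key 0 1 2 3 (by linarith), Int.cast_neg, abs_neg]
    exact alg_w3_le d x v hd _ _ _
  · show (d 1)⁻¹ * |((w3 x v 0 2 3 : ℤ) : ℝ)| ≤ _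
    rw [key 1 0 2 3 (by linarith)]
    exact alg_w3_le d x v hd _ _ _
  · show (d 2)⁻¹ * |((- w3 x v 0 1 3 : ℤ) : ℝ)| ≤ _
    rw [key 2 0 1 3 (by linarith), Int.cast_neg, abs_neg]
    exact alg_w3_le d x v hd _ _ _
  · show (d 3)⁻¹ * |((w3 x v 0 1 2 : ℤ) : ℝ)| ≤ _
    rw [key 3 0 1 2 (by linarith)]
    exact alg_w3_le d x v hd _ _ _

theorem st_ALG : ST_ALG :=
  ⟨fun _ h => alg_plu_stx h, fun _ h => alg_stx_stx h, fun _ v h => alg_inP_hv h v,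
    fun _ v h => alg_inP_iff h v, alg_wdg, fun _ h hp => alg_prim_stx h hp,
    fun d x hd hp h => alg_nx_stx d x hd hp h, fun d x v hd hp => alg_nv_hv d x v hd hp⟩

end Pool.Helper13.R6
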