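import Pool.Agent.Helper30.R6.ALG

/-! Row RED of `Pool.Agent.Helper13.R6.SheetA`: a reduced basis exists. -/

set_option autoImplicit false

namespace Pool.Helper13.R6

theorem red_finite (d : Fin 4 → ℝ) (hd : ∀ i, 0 < d i) (B : ℝ) :
    {v : V4 | nv d v ≤ B}.Finite := by
  set N : Fin 4 → ℤ := fun i => ⌈B / d i⌉ with hN
  apply (Set.finite_Icc (fun i => - N i) N).subset
  intro v hv
  have h1 : ∀ i, |v i| ≤ N i := by
    intro i
    have h2 : d i * |(v i : ℝ)| ≤ B := (le_nv d v i).trans hv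
    have h3 : |(v i : ℝ)| ≤ B / d i := by
      rw [le_div_iff₀ (hd i)]
      linarith
    have h4 : |(v i : ℝ)| ≤ (N i : ℝ) := h3.trans (Int.le_ceil _)
    have h5 : ((|v i| : ℤ) : ℝ) ≤ (N i : ℝ) := by
      rw [Int.cast_abs]
      exact h4
    exact_mod_cast h5
  rw [Set.mem_Icc, Pi.le_def, Pi.le_def]
  exact ⟨fun i => (abs_le.1 (h1 i)).1, fun i => (abs_le.1 (h1 i)).2⟩

theorem red_nv_smul (d : Fin 4 → ℝ) (hd : ∀ i, 0 < d i) (m : ℤ) (v : V4) :
    nv d (m • v) = |(m : ℝ)| * nv d v := by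
  apply le_antisymm
  · apply nv_le
    intro i
    have h := le_nv d v i
    have e : (((m • v) i : ℤ) : ℝ) = (m : ℝ) * (v i : ℝ) := by simp
    rw [e, abs_mul]
    have h2 := mul_le_mul_of_nonneg_left h (abs_nonneg (m : ℝ))
    linarith
  · rcases eq_or_ne m 0 with rfl | hm
    · simp only [Int.cast_zero, abs_zero, zero_mul]
      exact nv_nonneg hd _
    · have hm' : 0 < |(m : ℝ)| := abs_pos.2 (by exact_mod_cast hm)
      rw [← le_div_iff₀' hm']
      apply nv_le
      intro i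
      rw [le_div_iff₀ hm']
      have h := le_nv d (m • v) i
      have e : (((m • v) i : ℤ) : ℝ) = (m : ℝ) * (v i : ℝ) := by simp
      rw [e, abs_mul] at h
      linarith

theorem red_nv_pos {d : Fin 4 → ℝ} (hd : ∀ i, 0 < d i) {v : V4} (hv : v ≠ 0) : 0 < nv d v := by
  obtain ⟨i, hi⟩ := Function.ne_iff.1 hv
  have h1 : (0 : ℝ) < |(v i : ℝ)| := abs_pos.2 (by exact_mod_cast hi)
  exact (mul_pos (hd i) h1).trans_le (le_nv d v i)

theorem red_row {x : A4} (h : Plu x) (i : Fin 4) : InP x (x i) := by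
  rw [alg_inP_iff h]
  have hp := h.2
  have a10 := h.1 1 0
  have a20 := h.1 2 0
  have a30 := h.1 3 0
  have a21 := h.1 2 1
  have a31 := h.1 3 1
  have a32 := h.1 3 2
  have d0 := alg_diag h 0
  have d1 := alg_diag h 1
  have d2 := alg_diag h 2
  have d3 := alg_diag h 3
  funext l
  fin_cases i <;> fin_cases l <;>
    simp only [hv, w3, Fin.isValue, Fin.zero_eta, Fin.mk_one, Fin.reduceFinMk, Matrix.cons_val,
      Matrix.cons_val_zero, Matrix.cons_val_one, Pi.zero_apply, a10, a20, a30, a21, a31, a32,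
      d0, d1, d2, d3] <;> first | ring1 | linear_combination hp | linear_combination (-1 : ℤ) * hp

theorem red_exists {x : A4} (h : Plu x) (hp : PrimA x) : ∃ v : V4, InP x v ∧ v ≠ 0 := by
  by_contra hc
  push Not at hc
  have h1 : ∀ i, x i = 0 := fun i => hc _ (red_row h i)
  have h2 := hp 2 (fun i j => by rw [h1 i]; exact dvd_zero 2)
  exact absurd h2 (by decide)

theorem red_w3_smul (x : A4) (m : ℤ) (v : V4) (i j k : Fin 4) :
    w3 x (m • v) i j k = m * w3 x v i j k := by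
  simp only [w3, Pi.smul_apply, smul_eq_mul]
  ring

theorem st_RED (hKL1 : ST_KL1) : ST_RED := by
  intro d x hd h hp
  obtain ⟨v0, hv0, hv0'⟩ := red_exists h hp
  -- the first vector
  have hfin : {v : V4 | InP x v ∧ v ≠ 0 ∧ nv d v ≤ nv d v0}.Finite :=
    (red_finite d hd (nv d v0)).subset fun v hv => hv.2.2
  obtain ⟨s, ⟨hs1, hs2, hs3⟩, hs⟩ := Set.exists_min_image _ (nv d) hfin ⟨v0, hv0, hv0', le_rfl⟩
  have hmn : ∀ v : V4, InP x v → v ≠ 0 → nv d s ≤ nv d v := by
    intro v hv hv'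
    rcases le_or_gt (nv d v) (nv d v0) with h1 | h1
    · exact hs v ⟨hv, hv', h1⟩
    · exact hs3.trans h1.le
  have hprim : PrimV s := by
    intro m hm
    choose s' hs' using hm
    have e : s = m • (s' : V4) := by
      funext i
      simp only [Pi.smul_apply, smul_eq_mul]
      exact hs' i
    have hm0 : m ≠ 0 := by
      rintro rfl
      exact hs2 (by rw [e, zero_smul])
    have hs0 : (s' : V4) ≠ 0 := by
      intro h0
      exact hs2 (by rw [e, h0, smul_zero])
    have hI : InP x s' := by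
      intro i j k
      have h1 := hs1 i j k
      rw [e, red_w3_smul] at h1
      exact (mul_eq_zero.1 h1).resolve_left hm0
    have h1 := hmn s' hI hs0
    rw [e, red_nv_smul d hd] at h1
    have h2 := red_nv_pos hd hs0
    have h3 : |(m : ℝ)| ≤ 1 := by
      by_contra hc
      push Not at hc
      nlinarith
    have h4 : |m| ≤ 1 := by
      rw [← Int.cast_abs] at h3
      exact_mod_cast h3
    rw [Int.isUnit_iff]
    have h5 := abs_le.1 h4
    omega
  obtain ⟨t1, ht1⟩ := hKL1 x s h hprim hs1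
  have hfin2 : {w : V4 | (∃ m : ℤ, w = t1 + m • s) ∧ nv d w ≤ nv d t1}.Finite :=
    (red_finite d hd (nv d t1)).subset fun v hv => hv.2
  obtain ⟨t, ⟨⟨m, hm⟩, ht2⟩, ht⟩ :=
    Set.exists_min_image _ (nv d) hfin2 ⟨t1, ⟨0, by rw [zero_smul, add_zero]⟩, le_rfl⟩
  refine ⟨s, t, ?_, hs2, hmn, ?_⟩
  · rw [ht1, hm]
    funext i j
    simp only [wdg, Pi.add_apply, Pi.smul_apply, smul_eq_mul]
    ring
  · intro m'
    rcases le_or_gt (nv d (t + m' • s)) (nv d t1) with h1 | h1
    · exact ht _ ⟨⟨m + m', by rw [hm, add_smul, add_assoc]⟩, h1⟩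
    · exact ht2.trans h1.le

end Pool.Helper13.R6
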