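import Pool.Agent.Helper67.R6.Fam

/-! Row REL of the rank six family (MP_798d7d_nt). -/

set_option autoImplicit false

namespace Pool.Helper67.R6

open Pool.Helper17.R5 (V3 TF tfa tfb tfh tfk tfd tfe ev pol disc det3 Ix)

/-- the values of `u`, `v` modulo `MM` -/
theorem rel_uv (w : Par) (hw : Cong w) : ∃ α β : Fin 3 → ℤ,
    (U w 0 = -6 + MM * α 0 ∧ U w 1 = -4 + MM * α 1 ∧ U w 2 = 16 + MM * α 2) ∧
    (V w.2 0 = 32 + MM * β 0 ∧ V w.2 1 = 30 + MM * β 1 ∧ V w.2 2 = 30 + MM * β 2) := by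
  obtain ⟨⟨a, ha⟩, ⟨b, hb⟩, hc⟩ := hw
  choose c hc using hc
  have h0 : w.2 0 = -3 + MM * c 0 := by
    have := hc 0
    have e : zb 0 = -3 := rfl
    rw [e] at this
    linarith
  have h1 : w.2 1 = -1 + MM * c 1 := by
    have := hc 1
    have e : zb 1 = -1 := rfl
    rw [e] at this
    linarith
  have h2 : w.2 2 = 3 + MM * c 2 := by
    have := hc 2
    have e : zb 2 = 3 := rfl
    rw [e] at this
    linarith
  have h3 : w.2 3 = -3 + MM * c 3 := by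
    have := hc 3
    have e : zb 3 = -3 := rfl
    rw [e] at this
    linarith
  have h4 : w.2 4 = -3 + MM * c 4 := by
    have := hc 4
    have e : zb 4 = -3 := rfl
    rw [e] at this
    linarith
  have h5 : w.2 5 = 1 + MM * c 5 := by
    have := hc 5
    have e : zb 5 = 1 := rfl
    rw [e] at this
    linarith
  have hX : w.1.1 = 1 + MM * a := by linarith
  have hY : w.1.2 = -1 + MM * b := by linarith
  generalize hM : MM = M at *
  refine ⟨![c 3 + (-3) * a + M * a * c 3 - (-1) * c 0 - (-3) * b - M * c 0 * b,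
      c 4 + (-3) * a + M * a * c 4 - (-1) * c 1 - (-1) * b - M * c 1 * b,
      4 * (c 5 + 1 * a + M * a * c 5 - (-1) * c 2 - 3 * b - M * c 2 * b)],
    ![4 * ((-1) * c 5 + 1 * c 1 + M * c 1 * c 5 - (3 * c 4 + (-3) * c 2 + M * c 2 * c 4)),
      5 * ((-3) * c 5 + 1 * c 0 + M * c 0 * c 5 - (3 * c 3 + (-3) * c 2 + M * c 2 * c 3)),
      5 * ((-3) * c 4 + (-3) * c 0 + M * c 0 * c 4 - ((-1) * c 3 + (-3) * c 1 + M * c 1 * c 3))],
    ⟨?_, ?_, ?_⟩, ⟨?_, ?_, ?_⟩⟩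
  · show w.1.1 * w.2 3 - w.2 0 * w.1.2 = -6 + M * (c 3 + (-3) * a + M * a * c 3 - (-1) * c 0 -
      (-3) * b - M * c 0 * b)
    rw [hX, hY, h0, h3]
    ring
  · show w.1.1 * w.2 4 - w.2 1 * w.1.2 = -4 + M * (c 4 + (-3) * a + M * a * c 4 - (-1) * c 1 -
      (-1) * b - M * c 1 * b)
    rw [hX, hY, h1, h4]
    ring
  · show 4 * (w.1.1 * w.2 5 - w.2 2 * w.1.2) = 16 + M * (4 * (c 5 + 1 * a + M * a * c 5 -
      (-1) * c 2 - 3 * b - M * c 2 * b))
    rw [hX, hY, h2, h5]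
    ring
  · show 4 * (w.2 1 * w.2 5 - w.2 2 * w.2 4) = 32 + M * (4 * ((-1) * c 5 + 1 * c 1 +
      M * c 1 * c 5 - (3 * c 4 + (-3) * c 2 + M * c 2 * c 4)))
    rw [h1, h2, h4, h5]
    ring
  · show 5 * (w.2 0 * w.2 5 - w.2 2 * w.2 3) = 30 + M * (5 * ((-3) * c 5 + 1 * c 0 +
      M * c 0 * c 5 - (3 * c 3 + (-3) * c 2 + M * c 2 * c 3)))
    rw [h0, h2, h3, h5]
    ring
  · show 5 * (w.2 0 * w.2 4 - w.2 1 * w.2 3) = 30 + M * (5 * ((-3) * c 4 + (-3) * c 0 +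
      M * c 0 * c 4 - ((-1) * c 3 + (-3) * c 1 + M * c 1 * c 3)))
    rw [h0, h1, h3, h4]
    ring

/-- the Plücker relation -/
theorem rel_pl (w : Par) : 5 * (U w 0 * V w.2 0) - 4 * (U w 1 * V w.2 1) + U w 2 * V w.2 2 = 0 := by
  show 5 * ((w.1.1 * w.2 3 - w.2 0 * w.1.2) * (4 * (w.2 1 * w.2 5 - w.2 2 * w.2 4))) -
    4 * ((w.1.1 * w.2 4 - w.2 1 * w.1.2) * (5 * (w.2 0 * w.2 5 - w.2 2 * w.2 3))) +
    4 * (w.1.1 * w.2 5 - w.2 2 * w.1.2) * (5 * (w.2 0 * w.2 4 - w.2 1 * w.2 3)) = 0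
  ring

/-- division by `k` where `14400 = k l` -/
theorem rel_div {F q k b l r γ : ℤ} (hk : k ≠ 0) (hkl : 14400 = k * l) (hq : q = k * r + 14400 * F * γ) :
    k * (q / k) = q ∧ F ∣ q / k - r ∧ b = b := by
  have h1 : q = k * (r + l * F * γ) := by
    rw [hq, hkl]
    ring
  have h2 : q / k = r + l * F * γ := by
    rw [h1, Int.mul_ediv_cancel_left _ hk]
  refine ⟨by rw [h2, ← h1], ⟨l * γ, ?_⟩, rfl⟩
  rw [h2]
  ring

theorem st_REL : ST_REL := by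
  intro w hw
  obtain ⟨α, β, ⟨hU0, hU1, hU2⟩, hV0, hV1, hV2⟩ := rel_uv w hw
  have hpl := rel_pl w
  have hMF : MM = 14400 * ((QQ.factorial : ℕ) : ℤ) := rfl
  rw [hMF] at hU0 hU1 hU2 hV0 hV1 hV2
  clear hMF hw
  generalize ((QQ.factorial : ℕ) : ℤ) = F at *
  -- the roots
  have y0 := rel_div (F := F) (q := U w 0 + V w.2 0) (k := 2) (b := 0) (l := 7200) (r := 13)
    (γ := α 0 + β 0) (by norm_num) (by norm_num) (by rw [hU0, hV0]; ring)
  have y1 := rel_div (F := F) (q := U w 1 + V w.2 1) (k := 2) (b := 0) (l := 7200) (r := 13)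
    (γ := α 1 + β 1) (by norm_num) (by norm_num) (by rw [hU1, hV1]; ring)
  have y2 := rel_div (F := F) (q := U w 2 + V w.2 2) (k := 2) (b := 0) (l := 7200) (r := 23)
    (γ := α 2 + β 2) (by norm_num) (by norm_num) (by rw [hU2, hV2]; ring)
  have y3 := rel_div (F := F) (q := V w.2 0 - U w 0) (k := 2) (b := 0) (l := 7200) (r := 19)
    (γ := β 0 - α 0) (by norm_num) (by norm_num) (by rw [hU0, hV0]; ring)
  have y4 := rel_div (F := F) (q := V w.2 1 - U w 1) (k := 2) (b := 0) (l := 7200) (r := 17)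
    (γ := β 1 - α 1) (by norm_num) (by norm_num) (by rw [hU1, hV1]; ring)
  have y5 := rel_div (F := F) (q := V w.2 2 - U w 2) (k := 2) (b := 0) (l := 7200) (r := 7)
    (γ := β 2 - α 2) (by norm_num) (by norm_num) (by rw [hU2, hV2]; ring)
  -- the coefficients
  have ka := rel_div (F := F) (q := qa (U w) (V w.2)) (k := 480) (b := 0) (l := 30) (r := 3)
    (γ := 5 * (2 * (-6) * α 0 + 14400 * F * α 0 ^ 2 + (2 * 32 * β 0 + 14400 * F * β 0 ^ 2)) -
      8 * (2 * (-4) * α 1 + 14400 * F * α 1 ^ 2 + (2 * 30 * β 1 + 14400 * F * β 1 ^ 2)) +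
      3 * (2 * 16 * α 2 + 14400 * F * α 2 ^ 2 + (2 * 30 * β 2 + 14400 * F * β 2 ^ 2)))
    (by norm_num) (by norm_num) (by rw [qa, hU0, hU1, hU2, hV0, hV1, hV2]; ring)
  have kc := rel_div (F := F) (q := qc (U w) (V w.2)) (k := 288) (b := 0) (l := 50) (r := -9)
    (γ := -13 * (2 * (-6) * α 0 + 14400 * F * α 0 ^ 2 + (2 * 32 * β 0 + 14400 * F * β 0 ^ 2)) +
      16 * (2 * (-4) * α 1 + 14400 * F * α 1 ^ 2 + (2 * 30 * β 1 + 14400 * F * β 1 ^ 2)) -
      3 * (2 * 16 * α 2 + 14400 * F * α 2 ^ 2 + (2 * 30 * β 2 + 14400 * F * β 2 ^ 2)))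
    (by norm_num) (by norm_num) (by rw [qc, hU0, hU1, hU2, hV0, hV1, hV2]; ring)
  have ke := rel_div (F := F) (q := qe (U w) (V w.2)) (k := 40) (b := 0) (l := 360) (r := 289)
    (γ := 15 * (2 * (-6) * α 0 + 14400 * F * α 0 ^ 2 + (2 * 32 * β 0 + 14400 * F * β 0 ^ 2)) -
      6 * (2 * (-4) * α 1 + 14400 * F * α 1 ^ 2 + (2 * 30 * β 1 + 14400 * F * β 1 ^ 2)) +
      (2 * 16 * α 2 + 14400 * F * α 2 ^ 2 + (2 * 30 * β 2 + 14400 * F * β 2 ^ 2)))
    (by norm_num) (by norm_num) (by rw [qe, hU0, hU1, hU2, hV0, hV1, hV2]; ring)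
  have kb := rel_div (F := F) (q := qb (U w) (V w.2)) (k := 12) (b := 0) (l := 1200) (r := 22)
    (γ := ((-4) * β 1 + 30 * α 1 + 14400 * F * α 1 * β 1) -
      2 * ((-6) * β 0 + 32 * α 0 + 14400 * F * α 0 * β 0))
    (by norm_num) (by norm_num) (by rw [qb, hU0, hU1, hV0, hV1]; ring)
  have kd := rel_div (F := F) (q := qd (U w) (V w.2)) (k := 12) (b := 0) (l := 1200) (r := -118)
    (γ := 8 * ((-6) * β 0 + 32 * α 0 + 14400 * F * α 0 * β 0) -
      ((-4) * β 1 + 30 * α 1 + 14400 * F * α 1 * β 1))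
    (by norm_num) (by norm_num) (by rw [qd, hU0, hU1, hV0, hV1]; ring)
  obtain ⟨y0, z0, -⟩ := y0
  obtain ⟨y1, z1, -⟩ := y1
  obtain ⟨y2, z2, -⟩ := y2
  obtain ⟨y3, z3, -⟩ := y3
  obtain ⟨y4, z4, -⟩ := y4
  obtain ⟨y5, z5, -⟩ := y5
  obtain ⟨ka, la, -⟩ := ka
  obtain ⟨kb, lb, -⟩ := kb
  obtain ⟨kc, lc, -⟩ := kc
  obtain ⟨kd, ld, -⟩ := kd
  obtain ⟨ke, le, -⟩ := ke
  have Y0 : YY w 0 = (U w 0 + V w.2 0) / 2 := rfl
  have Y1 : YY w 1 = (U w 1 + V w.2 1) / 2 := rfl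
  have Y2 : YY w 2 = (U w 2 + V w.2 2) / 2 := rfl
  have Y3 : YY w 3 = (V w.2 0 - U w 0) / 2 := rfl
  have Y4 : YY w 4 = (V w.2 1 - U w 1) / 2 := rfl
  have Y5 : YY w 5 = (V w.2 2 - U w 2) / 2 := rfl
  rw [← Y0] at y0 z0
  rw [← Y1] at y1 z1
  rw [← Y2] at y2 z2
  rw [← Y3] at y3 z3
  rw [← Y4] at y4 z4
  rw [← Y5] at y5 z5
  have ka' : 480 * ca w = qa (U w) (V w.2) := ka
  have kb' : 12 * cb w = qb (U w) (V w.2) := kb
  have kc' : 288 * cc w = qc (U w) (V w.2) := kc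
  have kd' : 12 * cd w = qd (U w) (V w.2) := kd
  have ke' : 40 * ce w = qe (U w) (V w.2) := ke
  refine ⟨⟨y0, y1, y2, y3, y4, y5⟩, ⟨ka', kb', kc', kd', ke'⟩,
    ⟨?_, la, lb, ?_, ?_, le⟩, ⟨?_, ?_⟩, ?_⟩
  · intro i
    fin_cases i
    · exact z0
    · exact z1
    · exact z2
    · exact z3
    · exact z4
    · exact z5
  · have e : cc w + 9 = qc (U w) (V w.2) / 288 - -9 := by
      show qc (U w) (V w.2) / 288 + 9 = _
      ring
    rw [e]
    exact lc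
  · have e : cd w + 118 = qd (U w) (V w.2) / 12 - -118 := by
      show qd (U w) (V w.2) / 12 + 118 = _
      ring
    rw [e]
    exact ld
  · rw [qA, ← ka', ← kb', ← kc', ← kd', ← ke', aA]
    ring
  · rw [qB, ← ka', ← kb', ← kc', ← kd', ← ke', aB]
    ring
  · intro x
    rw [qa] at ka'
    rw [qb] at kb'
    rw [qc] at kc'
    rw [qd] at kd'
    rw [qe] at ke'
    have key : ∀ (i : Fin 6), ev (nf w x) (vs i) = ca w * xi i ^ 4 + cb w * xi i ^ 3 +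
        3 * cc w * xi i ^ 2 + cd w * xi i + ce w := by
      intro i
      show ca w * (xi i ^ 2) ^ 2 + cb w * xi i ^ 2 * xi i + (2 * cc w + x) * xi i ^ 2 +
        (cc w - x) * xi i ^ 2 * 1 + cd w * xi i * 1 + ce w * 1 ^ 2 = _
      ring
    refine ⟨?_, ?_, ?_⟩
    · intro i
      rw [key]
      generalize U w 0 = u0 at *
      generalize U w 1 = u1 at *
      generalize U w 2 = u2 at *
      generalize V w.2 0 = v0 at *
      generalize V w.2 1 = v1 at *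
      generalize V w.2 2 = v2 at *
      generalize ca w = a at *
      generalize cb w = b at *
      generalize cc w = c at *
      generalize cd w = d at *
      generalize ce w = e at *
      fin_cases i
      · show a * 1 ^ 4 + b * 1 ^ 3 + 3 * c * 1 ^ 2 + d * 1 + e = YY w 0 ^ 2
        have h : 480 * (a * 1 ^ 4 + b * 1 ^ 3 + 3 * c * 1 ^ 2 + d * 1 + e) = 480 * YY w 0 ^ 2 := by
          linear_combination ka' + 40 * kb' + 5 * kc' + 40 * kd' + 12 * ke' -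
            120 * (2 * YY w 0 + (u0 + v0)) * y0
        linarith
      · show a * 2 ^ 4 + b * 2 ^ 3 + 3 * c * 2 ^ 2 + d * 2 + e = YY w 1 ^ 2
        have h : 480 * (a * 2 ^ 4 + b * 2 ^ 3 + 3 * c * 2 ^ 2 + d * 2 + e) = 480 * YY w 1 ^ 2 := by
          linear_combination 16 * ka' + 8 * 40 * kb' + 4 * 5 * kc' + 2 * 40 * kd' + 12 * ke' -
            120 * (2 * YY w 1 + (u1 + v1)) * y1
        linarith
      · show a * 3 ^ 4 + b * 3 ^ 3 + 3 * c * 3 ^ 2 + d * 3 + e = YY w 2 ^ 2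
        have h : 480 * (a * 3 ^ 4 + b * 3 ^ 3 + 3 * c * 3 ^ 2 + d * 3 + e) = 480 * YY w 2 ^ 2 := by
          linear_combination 81 * ka' + 27 * 40 * kb' + 9 * 5 * kc' + 3 * 40 * kd' + 12 * ke' -
            120 * (2 * YY w 2 + (u2 + v2)) * y2 - 240 * hpl
        linarith
      · show a * (-1) ^ 4 + b * (-1) ^ 3 + 3 * c * (-1) ^ 2 + d * (-1) + e = YY w 3 ^ 2
        have h : 480 * (a * (-1) ^ 4 + b * (-1) ^ 3 + 3 * c * (-1) ^ 2 + d * (-1) + e) =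
            480 * YY w 3 ^ 2 := by
          linear_combination ka' - 40 * kb' + 5 * kc' - 40 * kd' + 12 * ke' -
            120 * (2 * YY w 3 + (v0 - u0)) * y3
        linarith
      · show a * (-2) ^ 4 + b * (-2) ^ 3 + 3 * c * (-2) ^ 2 + d * (-2) + e = YY w 4 ^ 2
        have h : 480 * (a * (-2) ^ 4 + b * (-2) ^ 3 + 3 * c * (-2) ^ 2 + d * (-2) + e) =
            480 * YY w 4 ^ 2 := by
          linear_combination 16 * ka' - 8 * 40 * kb' + 4 * 5 * kc' - 2 * 40 * kd' + 12 * ke' -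
            120 * (2 * YY w 4 + (v1 - u1)) * y4
        linarith
      · show a * (-3) ^ 4 + b * (-3) ^ 3 + 3 * c * (-3) ^ 2 + d * (-3) + e = YY w 5 ^ 2
        have h : 480 * (a * (-3) ^ 4 + b * (-3) ^ 3 + 3 * c * (-3) ^ 2 + d * (-3) + e) =
            480 * YY w 5 ^ 2 := by
          linear_combination 81 * ka' - 27 * 40 * kb' + 9 * 5 * kc' - 3 * 40 * kd' + 12 * ke' -
            120 * (2 * YY w 5 + (v2 - u2)) * y5 + 240 * hpl
        linarith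
    · show ca w * 1 ^ 2 + cb w * 1 * 0 + (2 * cc w + x) * 0 ^ 2 + (cc w - x) * 1 * 0 +
        cd w * 0 * 0 + ce w * 0 ^ 2 = ca w
      ring
    · show ca w * cd w ^ 2 + cb w ^ 2 * ce w + (2 * cc w + x) * (cc w - x) ^ 2 -
        cb w * cd w * (cc w - x) - 4 * ca w * (2 * cc w + x) * ce w = _
      rw [aA, aB]
      ring

end Pool.Helper67.R6
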